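import Mathlib
import Pool.Agent.H565Z.FsDefs
import Pool.Agent.H565Z.FsFinal

set_option autoImplicit false

namespace Pool.Agent.Results.MP_9fb650_an.AbelianSubgroup

open Pool.Agent.H565Z.Fs

/-- `B(G) = NS(G) + NS(G)` for every discrete group that is finite or has an infinite abelian
subgroup. -/
theorem result :
    ∀ (G : Type) [Group G],
      (Infinite G → ∃ A : Subgroup G, (A : Set G).Infinite ∧ ∀ a ∈ A, ∀ b ∈ A, a * b = b * a) →
      ∀ f ∈ FourierStieltjes G, ∃ f₁ ∈ NaturalSpectrum G, ∃ f₂ ∈ NaturalSpectrum G,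
        f = f₁ + f₂ :=
  fun _ _ hG => final hG

end Pool.Agent.Results.MP_9fb650_an.AbelianSubgroup
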